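import Pool.Agent.L7h43.QU.Stm

/-! Project QU, part TUBE: the solution of the equation of the tube, to any order
(adapted from the file of helper36 for project NQ). -/

namespace Pool.Agent.L7h79.QU

open MvPolynomial Pool.Agent.L7h43.QU
open Pool.Agent.L7h52.NQ (mI)

section
variable {F : Type} [Field F]

theorem sub_C_mem (f : MvPolynomial (Fin 2) F) : f - C (constantCoeff f) ∈ mI F := by
  induction f using MvPolynomial.induction_on with
  | C a => simp
  | add p q hp hq =>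
    have : p + q - C (constantCoeff (p + q)) =
        (p - C (constantCoeff p)) + (q - C (constantCoeff q)) := by
      rw [map_add, C_add]
      ring
    rw [this]
    exact (mI F).add_mem hp hq
  | mul_X p i hp =>
    have : p * X i - C (constantCoeff (p * X i)) = p * X i := by simp
    rw [this]
    refine (mI F).mul_mem_left _ ?_
    unfold mI
    apply Ideal.subset_span
    fin_cases i
    · simp
    · simp

theorem mem_mI_of {f : MvPolynomial (Fin 2) F} (h : constantCoeff f = 0) : f ∈ mI F := by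
  have := sub_C_mem f
  rwa [h, C_0, sub_zero] at this

theorem nN_sub {S : Type*} [CommRing S] (x a b : S) : a - b ∣ nN x a - nN x b := by
  have := Polynomial.sub_dvd_eval_sub a b (nN (Polynomial.C x) Polynomial.X)
  simpa [nN] using this

theorem uu_sub {S : Type*} [CommRing S] (x a b : S) : a - b ∣ uu x a ^ 6 - uu x b ^ 6 := by
  have := Polynomial.sub_dvd_eval_sub a b (uu (Polynomial.C x) Polynomial.X ^ 6)
  simpa [uu] using this

/-- the equation divided by `y` -/
noncomputable def eq1 (v : MvPolynomial (Fin 2) F) : MvPolynomial (Fin 2) F :=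
  v * nN (X 0) (X 1 * v) - uu (X 0) (X 1 * v) ^ 6

/-- the constant coefficient, a homomorphism which sends `X 0` and `X 1 * v` to zero -/
theorem nN_cc (v : MvPolynomial (Fin 2) F) :
    constantCoeff (nN (X 0 : MvPolynomial (Fin 2) F) (X 1 * v)) = 11664 := by
  have h1 : ∀ {S T : Type} [CommRing S] [CommRing T] (φ : S →+* T) (x w : S),
      φ x = 0 → φ w = 0 → φ (nN x w) = 11664 := by
    intro S T _ _ φ x w hx hw
    simp only [nN, map_add, map_mul, map_sub, map_pow, hx, hw, map_ofNat, map_neg]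
    ring
  exact h1 (constantCoeff (σ := Fin 2) (R := F)) (X 0) (X 1 * v) (by simp) (by simp)

theorem uu_cc (v : MvPolynomial (Fin 2) F) :
    constantCoeff (uu (X 0 : MvPolynomial (Fin 2) F) (X 1 * v)) = 2 := by
  have h1 : ∀ {S T : Type} [CommRing S] [CommRing T] (φ : S →+* T) (x w : S),
      φ x = 0 → φ w = 0 → φ (uu x w) = 2 := by
    intro S T _ _ φ x w hx hw
    simp only [uu, map_mul, map_sub, hx, hw, map_ofNat, map_one]
    ring
  exact h1 (constantCoeff (σ := Fin 2) (R := F)) (X 0) (X 1 * v) (by simp) (by simp)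

theorem eq1_cc (v : MvPolynomial (Fin 2) F) :
    constantCoeff (eq1 v) = 11664 * constantCoeff v - 64 := by
  rw [eq1, map_sub, map_mul, map_pow, nN_cc, uu_cc]
  ring

theorem step [CharZero F] (n : ℕ) (v : MvPolynomial (Fin 2) F) (hv : eq1 v ∈ mI F ^ n) :
    eq1 (v - C (11664⁻¹ : F) * eq1 v) ∈ mI F ^ (n + 1) := by
  obtain ⟨h, hh⟩ : ∃ h, h = -(C (11664⁻¹ : F) * eq1 v) := ⟨_, rfl⟩
  have e0 : v - C (11664⁻¹ : F) * eq1 v = v + h := by rw [hh]; ring
  rw [e0]
  have hm : h ∈ mI F ^ n := by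
    rw [hh]
    exact Ideal.neg_mem_iff _ |>.2 (Ideal.mul_mem_left _ _ hv)
  have h576 : (11664 : MvPolynomial (Fin 2) F) * h = - eq1 v := by
    have h1 : (11664 : MvPolynomial (Fin 2) F) * C (11664⁻¹ : F) = 1 := by
      have : (11664 : MvPolynomial (Fin 2) F) = C 11664 := by simp only [map_ofNat]
      rw [this, ← C_mul, mul_inv_cancel₀ (by norm_num), C_1]
    rw [hh]
    linear_combination (- eq1 v) * h1
  have hX : (X 1 : MvPolynomial (Fin 2) F) ∈ mI F := mem_mI_of (by simp)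
  have hXh : X 1 * h ∈ mI F ^ (n + 1) := by
    rw [pow_succ', ]
    exact Ideal.mul_mem_mul hX hm
  obtain ⟨a, ha⟩ := nN_sub (X 0 : MvPolynomial (Fin 2) F) (X 1 * (v + h)) (X 1 * v)
  obtain ⟨b, hb⟩ := uu_sub (X 0 : MvPolynomial (Fin 2) F) (X 1 * (v + h)) (X 1 * v)
  have hn : nN (X 0) (X 1 * (v + h)) - 11664 ∈ mI F := by
    apply mem_mI_of
    rw [map_sub, nN_cc, map_ofNat, sub_self]
  have hn2 : (nN (X 0) (X 1 * (v + h)) - 11664) * h ∈ mI F ^ (n + 1) := by
    rw [pow_succ']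
    exact Ideal.mul_mem_mul hn hm
  have key : eq1 (v + h) = (nN (X 0) (X 1 * (v + h)) - 11664) * h +
      (v * a - b) * (X 1 * h) := by
    unfold eq1
    unfold eq1 at h576
    obtain ⟨N1, hN1⟩ : ∃ N1, N1 = nN (X 0) (X 1 * (v + h)) := ⟨_, rfl⟩
    obtain ⟨N2, hN2⟩ : ∃ N2, N2 = nN (X 0) (X 1 * v) := ⟨_, rfl⟩
    obtain ⟨U1, hU1⟩ : ∃ U1, U1 = uu (X 0) (X 1 * (v + h)) ^ 6 := ⟨_, rfl⟩
    obtain ⟨U2, hU2⟩ : ∃ U2, U2 = uu (X 0) (X 1 * v) ^ 6 := ⟨_, rfl⟩
    rw [← hN1, ← hN2] at ha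
    rw [← hU1, ← hU2] at hb
    rw [← hN1, ← hU1]
    rw [← hN2, ← hU2] at h576
    linear_combination h576 + v * ha - hb
  rw [key]
  exact Ideal.add_mem _ hn2 (Ideal.mul_mem_left _ _ hXh)

theorem sol1 [CharZero F] (n : ℕ) : ∃ v : MvPolynomial (Fin 2) F, constantCoeff v = 4 / 729 ∧
    eq1 v ∈ mI F ^ (n + 1) := by
  induction n with
  | zero =>
    refine ⟨C (4 / 729), by simp, ?_⟩
    rw [zero_add, pow_one]
    apply mem_mI_of
    rw [eq1_cc]
    simp
    norm_num
  | succ n ih =>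
    obtain ⟨v, h1, h2⟩ := ih
    refine ⟨v - C (11664⁻¹ : F) * eq1 v, ?_, step _ v h2⟩
    have h3 : constantCoeff (eq1 v) = 0 := by
      rw [eq1_cc, h1]
      norm_num
    rw [map_sub, map_mul, h3, mul_zero, sub_zero, h1]

end

theorem s_TUBE : S_TUBE := by
  intro F _ _ n
  obtain ⟨v, h1, h2⟩ := sol1 (F := F) n
  refine ⟨v, ?_, ?_⟩
  · rw [h1]
    norm_num
  · have e : (X 1 * v) * nN (X 0) (X 1 * v) - X 1 * uu (X 0) (X 1 * v) ^ 6 = X 1 * eq1 v := by
      unfold eq1
      ring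
    rw [e]
    exact Ideal.mul_mem_left _ _ (Ideal.pow_le_pow_right (Nat.le_succ n) h2)

end Pool.Agent.L7h79.QU
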