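import Pool.Agent.L7h43.QU.Stm
import Pool.Agent.TH603.Sur.Flat

/-!
# Project QU, parts FLE and FLS (adapted from the files of helper65 for project NQ)
-/

namespace Pool.Agent.L7h79.QU

open Pool.Agent.L7h43.QU
open Pool.Agent.TH176.Nag (Emp Emp_flat)
open Pool.Agent.TH603.Sur (Sur TZ Sur_flat)
open Pool.Agent.TH469.SX (Fl)
open Pool.Agent.TH864.SX (Slp)

/-- a point of the block has positive abscissa -/
theorem b5_pos {M q : ℕ} {K : ℝ} {d : ℕ} (h : Slp M q K) (hd : d % 5 ≠ 1) {t j : ℤ}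
    (hp : ((t, j) : ℤ × ℤ) ∈ B5 M K d) : 0 < t := by
  obtain ⟨g1, g2, g3⟩ := hp
  simp only at g1 g2 g3
  have hK := h.K0
  have hMK := h.hMK
  have hM : (0 : ℝ) < M := by exact_mod_cast h.hM
  by_contra hc
  have ht : (t : ℝ) ≤ 0 := by exact_mod_cast not_lt.1 hc
  have e1 : 0 ≤ (M : ℝ) * (((d : ℝ) - 1) / 5 - j) := by nlinarith
  have e2 : 0 ≤ ((d : ℝ) - 1) / 5 - j := by
    by_contra h1
    push Not at h1
    nlinarith
  have e3 : ((d : ℝ) - 1) / 5 - j ≤ 0 := by
    by_contra h1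
    push Not at h1
    have : 0 < (K - M) * (((d : ℝ) - 1) / 5 - j) := mul_pos (by linarith) h1
    linarith
  have e4 : (d : ℝ) - 1 = 5 * j := by linarith
  have e5 : (d : ℤ) - 1 = 5 * j := by exact_mod_cast e4
  omega

/-- the end of a column is not an integer -/
theorem b5_ne {M q : ℕ} {K : ℝ} {d : ℕ} (h : Slp M q K) {t z : ℤ} (ht : t ≠ 0) :
    ((d : ℝ) - 1) / 5 - q * K * t / M ≠ z := by
  intro h1
  have hM : (0 : ℝ) < M := by exact_mod_cast h.hM
  have hq : (0 : ℝ) < q := by exact_mod_cast h.hq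
  have ht' : (t : ℝ) ≠ 0 := by exact_mod_cast ht
  apply h.irr
  refine ⟨(((d : ℚ) - 1) / 5 - z) * M / (q * t), ?_⟩
  push_cast
  rw [← h1]
  field_simp
  ring

/-- a column of the block -/
theorem col5 {M q : ℕ} {K : ℝ} {d : ℕ} (h : Slp M q K) (hd : d % 5 ≠ 1) {t j T : ℤ} {k : ℕ}
    (hk : (k : ℤ) ≤ T)
    (hp : ((t, j) : ℤ × ℤ) ∈ B5 M K d) (hp' : ((t, j + T) : ℤ × ℤ) ∈ B5 M K d) :
    ((t, (k : ℤ)) : ℤ × ℤ) ∈ Fl q K (K * ((d - 1) / 5)) := by
  have hK := h.K0
  have hq : (0 : ℝ) < q := by exact_mod_cast h.hq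
  have ht := b5_pos h hd hp
  obtain ⟨g1, g2, -⟩ := hp
  obtain ⟨-, -, g3⟩ := hp'
  simp only at g1 g2 g3
  have hkR : (k : ℝ) ≤ T := by exact_mod_cast hk
  have hj0 : (0 : ℝ) ≤ j := by exact_mod_cast g1
  push_cast at g3
  have g2' := h.low.1 g2
  have g3' := h.up.1 g3
  have hT : (T : ℝ) ≤ q * t := by linarith
  refine ⟨by simp only; omega, by simp, ?_, ?_⟩
  · simp only
    have h5 : (k : ℝ) ≤ q * t := by linarith
    have h6 : (k : ℤ) ≤ q * t := by exact_mod_cast h5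
    rcases h6.lt_or_eq with h7 | h7
    · exact h7
    · exfalso
      have h8 : (k : ℝ) = q * t := by exact_mod_cast h7
      refine b5_ne (d := d) h (t := t) (z := j) (by omega) ?_
      linarith
  · simp only
    have h6 : K * (k : ℝ) ≤ K * (j + T) := mul_le_mul_of_nonneg_left (by linarith) hK.le
    push_cast
    linarith

theorem s_FLE : S_FLE := by
  intro M q K d ι w h hd
  constructor
  · intro hE
    refine Emp_flat (S' := Fl q K (K * ((d - 1) / 5))) 1 0 1 0 (by norm_num) ?_ hE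
    rintro ⟨t, j⟩ T k hp hp' hk
    have e : ((1 * t + 0 * j, (k : ℤ)) : ℤ × ℤ) = (t, (k : ℤ)) := by simp
    have e' : ((t - 0 * T, j + 1 * T) : ℤ × ℤ) = (t, j + T) := by simp
    simp only at hp' ⊢
    rw [e]
    rw [e'] at hp'
    exact col5 h hd hk hp hp'
  · intro hE
    refine Emp_flat (S' := Fl q K (K * ((d - 1) / 5)) ∪ {((0, 0) : ℤ × ℤ)}) 1 0 1 0
      (by norm_num) ?_ hE
    rintro ⟨t, j⟩ T k hp hp' hk
    have e : ((1 * t + 0 * j, (k : ℤ)) : ℤ × ℤ) = (t, (k : ℤ)) := by simp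
    have e' : ((t - 0 * T, j + 1 * T) : ℤ × ℤ) = (t, j + T) := by simp
    simp only at hp' ⊢
    rw [e]
    rw [e'] at hp'
    rcases hp with hp | ⟨z1, z2, z3⟩
    · have ht := b5_pos h hd hp
      rcases hp' with hp' | ⟨z1, z2, z3⟩
      · left
        exact col5 h hd hk hp hp'
      · exfalso
        simp only at z1
        omega
    · simp only at z1 z2 z3
      rcases hp' with hp' | ⟨y1, y2, y3⟩
      · exfalso
        have := b5_pos h hd hp'
        omega
      · simp only at y1 y2 y3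
        right
        have h1 : T = 0 := by linarith
        have h2 : k = 0 := by omega
        rw [h2, z1]
        rfl

theorem s_FLS : S_FLS := by
  intro M q K d ι _ w h hS
  have hM : (0 : ℝ) < M := by exact_mod_cast h.hM
  have hK := h.K0
  have hq : (0 : ℝ) < q := by exact_mod_cast h.hq
  refine Sur_flat (S' := Fl q K (K * ((d - 1) / 5))) 1 0 1 0 (by norm_num) ?_ hS
  rintro ⟨t, k⟩ ⟨g1, g2, g3, g4⟩
  simp only at g1 g2 g3 g4
  refine ⟨g2, ?_⟩
  obtain ⟨x, hx⟩ : ∃ x : ℝ, x = ((d : ℝ) - 1) / 5 - q * K * t / M := ⟨_, rfl⟩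
  refine ⟨max 0 ⌈x⌉, fun s hs1 hs2 => ?_⟩
  have e : ((1 * t - 0 * s, 0 * t + 1 * s) : ℤ × ℤ) = (t, s) := by simp
  simp only at hs2 ⊢
  rw [e]
  refine ⟨(le_max_left _ _).trans hs1, ?_, ?_⟩
  · simp only
    rw [h.low]
    have h5 : (⌈x⌉ : ℝ) ≤ s := by exact_mod_cast (le_max_right _ _).trans hs1
    have h6 := Int.le_ceil x
    linarith
  · simp only
    rcases le_total ⌈x⌉ 0 with h5 | h5
    · rw [max_eq_left h5] at hs2
      have h6 : (s : ℝ) ≤ k := by
        have : s ≤ k := by omega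
        exact_mod_cast this
      have h7 : K * (s : ℝ) ≤ K * k := mul_le_mul_of_nonneg_left h6 hK.le
      linarith
    · rw [max_eq_right h5] at hs2
      rw [h.up]
      have h6 : (s : ℝ) + 1 ≤ ⌈x⌉ + q * t := by
        have h8 : s + 1 ≤ ⌈x⌉ + q * t := by omega
        exact_mod_cast h8
      have h7 := Int.ceil_lt_add_one x
      linarith

end Pool.Agent.L7h79.QU
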